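import Pool.Agent.Y666.SP.Stm

/-!
# PROJECT SP: the block S_FREE
-/

set_option autoImplicit false

namespace Pool.Agent.Y401.SP

open Pool.Agent.Y666.SP

/-- a strictly decreasing sequence in `C ∩ g` which is coinitial in `g` -/
theorem exists_coinitial {α : Type} [PartialOrder α] [Countable α] (C : Set α) (g : Germ α)
    (h : ∀ z ∈ g.carrier, ∃ c ∈ C, c ∈ g.carrier ∧ c ≤ z) :
    ∃ c : ℕ → α, StrictAnti c ∧ (∀ n, c n ∈ C ∧ c n ∈ g.carrier) ∧
      ∀ z ∈ g.carrier, ∃ n, c n ≤ z := by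
  obtain ⟨z0, hz0⟩ := g.nonempty
  haveI : Nonempty g.carrier := ⟨⟨z0, hz0⟩⟩
  obtain ⟨e, he⟩ := exists_surjective_nat g.carrier
  obtain ⟨c0, hc0, hc0g, -⟩ := h z0 hz0
  have hnext : ∀ (p : {c : α // c ∈ C ∧ c ∈ g.carrier}) (n : ℕ),
      ∃ p' : {c : α // c ∈ C ∧ c ∈ g.carrier}, p'.1 < p.1 ∧ p'.1 ≤ (e n).1 := by
    intro p n
    obtain ⟨z, hz, hz1, hz2⟩ := g.dir p.1 p.2.2 (e n).1 (e n).2
    obtain ⟨c, hc, hcg, hcz⟩ := h z hz
    exact ⟨⟨c, hc, hcg⟩, lt_of_le_of_lt hcz hz1, hcz.trans hz2.le⟩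
  choose nx hnx1 hnx2 using hnext
  let s : ℕ → {c : α // c ∈ C ∧ c ∈ g.carrier} := fun n =>
    Nat.rec ⟨c0, hc0, hc0g⟩ (fun n p => nx p n) n
  have hs : ∀ n, s (n + 1) = nx (s n) n := fun n => rfl
  refine ⟨fun n => (s n).1, strictAnti_nat_of_succ_lt fun n => ?_, fun n => (s n).2, ?_⟩
  · show (s (n + 1)).1 < (s n).1
    rw [hs]; exact hnx1 _ _
  · intro z hz
    obtain ⟨n, hn⟩ := he ⟨z, hz⟩
    refine ⟨n + 1, ?_⟩
    show (s (n + 1)).1 ≤ z
    rw [hs]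
    have := hnx2 (s n) n
    rw [hn] at this
    exact this

theorem t_FREE (h1 : S_MP) (h2 : S_COI) (h3 : S_RAM) : S_FREE := by
  intro α _ _ w hw G C f hSel hBase x hx
  obtain ⟨g, hg, hxg, q, hq, hxq⟩ : ∃ g ∈ G, x ∉ g.carrier ∧ ∃ q ∈ g.carrier, ¬ x < q := by
    unfold BB at hx
    simp only [Set.mem_ofPred_eq] at hx
    push Not at hx
    exact hx
  obtain ⟨c0, hc0, hc0C, hc0co⟩ := exists_coinitial C g (h2 α w hw G C f hSel hBase g hg)
  intro hfin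
  -- the bad indices are all but finitely many
  have hpre : {n : ℕ | c0 n ∈ {c | c ∈ C ∧ ∀ z ∈ BB G, f z = c → ¬ x ≤ z ∧ ¬ z ≤ x}}.Finite :=
    hfin.preimage hc0.injective.injOn
  obtain ⟨N, hN⟩ := hpre.bddAbove
  have hbad : ∀ n : ℕ, ∃ z ∈ BB G, f z = c0 (N + 1 + n) ∧ z ∈ g.carrier ∧ x ≤ z := by
    intro n
    have hn : c0 (N + 1 + n) ∉ {c | c ∈ C ∧ ∀ z ∈ BB G, f z = c → ¬ x ≤ z ∧ ¬ z ≤ x} := by
      intro hmem
      have := hN (show N + 1 + n ∈ {n : ℕ | c0 n ∈ {c | c ∈ C ∧ ∀ z ∈ BB G, f z = c →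
        ¬ x ≤ z ∧ ¬ z ≤ x}} from hmem)
      omega
    simp only [Set.mem_ofPred_eq] at hn
    push Not at hn
    obtain ⟨z, hz, hfz, hxz⟩ := hn (hc0C _).1
    have hzg : z ∈ g.carrier := (hBase.same z hz g hg).1 (by rw [hfz]; exact (hc0C _).2)
    refine ⟨z, hz, hfz, hzg, ?_⟩
    by_contra hcon
    exact hxg (g.up z hzg x (hxz hcon))
  choose z hzB hfz hzg hxz using hbad
  set c : ℕ → α := fun n => c0 (N + 1 + n) with hc
  have hcanti : StrictAnti c := fun a b hab => hc0 (by omega)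
  have hcC : ∀ n, c n ∈ C := fun n => (hc0C _).1
  have hcg : ∀ n, c n ∈ g.carrier := fun n => (hc0C _).2
  have hcco : ∀ y ∈ g.carrier, ∃ n, c n ≤ y := by
    intro y hy
    obtain ⟨n, hn⟩ := hc0co y hy
    refine ⟨n, le_trans ?_ hn⟩
    exact hc0.antitone (by omega)
  obtain ⟨m, hm⟩ := hcco q hq
  have hzm : ∀ n, ¬ z n ≤ c m := by
    intro n hn
    have hle : x ≤ q := (hxz n).trans (hn.trans hm)
    apply hxq
    refine lt_of_le_of_ne hle ?_
    rintro rfl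
    exact hxg hq
  have hzinj : Function.Injective z := by
    intro a b hab
    have : c a = c b := by
      show c0 (N + 1 + a) = c0 (N + 1 + b)
      rw [← hfz a, ← hfz b, hab]
    exact hcanti.injective this
  -- the contradiction
  have hcontra : ∀ n, ¬ c n < z n := by
    intro n
    apply hBase.anti (c n) (hBase.sub (hcC n)) (z n) (hzB n)
    rw [hBase.fix (c n) (hcC n), hfz n]
  obtain ⟨k, hk, hmono | hanti⟩ := h3 α w hw z hzinj
  · obtain ⟨j, hj⟩ := hcco (z (k 0)) (hzg _)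
    have hkj : j < k (j + 1) := lt_of_lt_of_le (Nat.lt_succ_self j) (hk.id_le (j + 1))
    apply hcontra (k (j + 1))
    have e1 : c (k (j + 1)) < c j := hcanti hkj
    have e2 : z (k 0) < z (k (j + 1)) := hmono (Nat.succ_pos j)
    exact e1.trans_le (hj.trans e2.le)
  · rcases h1 α G hSel g hg (z ∘ k) hanti (fun n => hzB _) (fun n => hzg _) with h | ⟨p, hp, hpz⟩
    · obtain ⟨n, hn⟩ := h (c m) (hcg m)
      exact hzm _ hn
    · obtain ⟨j, hj⟩ := hcco p hp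
      have hkj : j < k (j + 1) := lt_of_lt_of_le (Nat.lt_succ_self j) (hk.id_le (j + 1))
      apply hcontra (k (j + 1))
      have e1 : c (k (j + 1)) < c j := hcanti hkj
      exact e1.trans_le (hj.trans (hpz (j + 1)).le)

end Pool.Agent.Y401.SP

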