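import Pool.Agent.Y666.SP.Stm

/-!
# PROJECT SP: the block S_WPT
-/

set_option autoImplicit false

namespace Pool.Agent.Y401.SP

open Pool.Agent.Y666.SP

theorem t_WPT (h1 : S_UP) (h2 : S_IN) : S_WPT := by
  intro Φ _ ll hS L U hne hnt
  have htr : ∀ a b c, ll a b → ll b c → ll a c := fun a b c h h' => hS.lel a b c (hS.lt a b h).le h'
  have hstep : ∀ p : {p : Set Φ × Set Φ // (Reg ll p.1 p.2).Nonempty ∧ ¬ Tame ll (Reg ll p.1 p.2)},
      ∃ (p' : {p : Set Φ × Set Φ // (Reg ll p.1 p.2).Nonempty ∧ ¬ Tame ll (Reg ll p.1 p.2)})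
        (a b : Φ), a ∈ p'.1.1 ∧ b ∈ p'.1.2 ∧ a ∈ Reg ll p.1.1 p.1.2 ∧ b ∈ Reg ll p.1.1 p.1.2 := by
    rintro ⟨⟨L1, U1⟩, hne1, hnt1⟩
    obtain ⟨g, hg⟩ := hne1
    obtain ⟨e1, e2⟩ := h1 Φ ll hS L1 U1 hnt1 g hg
    obtain ⟨L2, U2, ⟨a, ha, ha'⟩, ⟨b, hb, hb'⟩, e3, e4⟩ := h2 Φ ll hS (insert g L1) U1 e1 e2
    have hsub : ∀ x ∈ Reg ll (insert g L1) U1, x ∈ Reg ll L1 U1 :=
      fun x hx => ⟨fun l hl => hx.1 l (Set.mem_insert_of_mem g hl), hx.2⟩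
    exact ⟨⟨⟨L2, U2⟩, e3, e4⟩, a, b, ha, hb, hsub a ha', hsub b hb'⟩
  choose nx ax bx hax hbx haR hbR using hstep
  let P : ℕ → {p : Set Φ × Set Φ // (Reg ll p.1 p.2).Nonempty ∧ ¬ Tame ll (Reg ll p.1 p.2)} :=
    fun n => Nat.rec ⟨⟨L, U⟩, hne, hnt⟩ (fun _ p => nx p) n
  have hP : ∀ n, P (n + 1) = nx (P n) := fun n => rfl
  have hA : ∀ n, ax (P n) ∈ (P (n + 1)).1.1 := fun n => by rw [hP]; exact hax _
  have hB : ∀ n, bx (P n) ∈ (P (n + 1)).1.2 := fun n => by rw [hP]; exact hbx _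
  have hstep' : ∀ n, Reg ll (P (n + 1)).1.1 (P (n + 1)).1.2 ⊆ Reg ll (P n).1.1 (P n).1.2 := by
    intro n x hx
    exact ⟨fun l hl => htr _ _ _ ((haR (P n)).1 l hl) (hx.1 _ (hA n)),
      fun u hu => htr _ _ _ (hx.2 _ (hB n)) ((hbR (P n)).2 u hu)⟩
  have hsub : ∀ n m, n ≤ m → Reg ll (P m).1.1 (P m).1.2 ⊆ Reg ll (P n).1.1 (P n).1.2 := by
    intro n m hnm
    induction m, hnm using Nat.le_induction with
    | base => exact subset_rfl
    | succ m _ ih => exact (hstep' m).trans ih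
  have hbb : ∀ i j, i < j → ll (bx (P j)) (bx (P i)) := by
    intro i j hij
    exact (hsub (i + 1) j hij (hbR (P j))).2 _ (hB i)
  obtain ⟨d, hd1, hd2, -⟩ := hS.glb (Set.range fun n => bx (P n)) ⟨_, 0, rfl⟩
    (by
      rintro _ ⟨i, rfl⟩ _ ⟨j, rfl⟩
      rcases lt_trichotomy i j with h | h | h
      · exact Or.inr (Or.inr (hbb i j h))
      · exact Or.inl (by rw [h])
      · exact Or.inr (Or.inl (hbb j i h)))
    (by
      rintro _ ⟨i, rfl⟩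
      exact ⟨_, ⟨i + 1, rfl⟩, hbb i (i + 1) (Nat.lt_succ_self i)⟩)
  have hdb : ∀ n, d ≤ bx (P n) := fun n => hd1 _ ⟨n, rfl⟩
  have hdR : ∀ n, d ∈ Reg ll (P (n + 1)).1.1 (P (n + 1)).1.2 := by
    intro n
    constructor
    · intro l hl
      have e1 : ll l (ax (P (n + 1))) := (haR (P (n + 1))).1 l hl
      have e2 : ax (P (n + 1)) ≤ d := by
        apply hd2
        rintro _ ⟨m, rfl⟩
        show ax (P (n + 1)) ≤ bx (P m)
        have e3 : ∀ m, n + 2 ≤ m → ax (P (n + 1)) ≤ bx (P m) := by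
          intro m hm
          exact (hS.lt _ _ ((hsub (n + 2) m hm (hbR (P m))).1 _ (hA (n + 1)))).le
        by_cases hm : n + 2 ≤ m
        · exact e3 m hm
        · exact (e3 (n + 2) le_rfl).trans (hS.lt _ _ (hbb m (n + 2) (by omega))).le
      exact hS.lle _ _ _ e1 e2
    · intro u hu
      exact hS.lel _ _ _ (hdb (n + 1)) ((hbR (P (n + 1))).2 u hu)
  refine ⟨d, hstep' 0 (hdR 0), fun n => (P (n + 1)).1.1, fun n => (P (n + 1)).1.2,
    fun n => bx (P n), ?_, ?_, hdR, hB, ?_, ?_⟩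
  · intro n
    exact hsub 0 (n + 1) (Nat.zero_le _)
  · intro n
    exact (P (n + 1)).2.2
  · intro n
    exact hbR (P (n + 1))
  · intro x hx
    apply hd2
    rintro _ ⟨n, rfl⟩
    exact hx n

end Pool.Agent.Y401.SP

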